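import Mathlib

namespace Pool.Agent.Results.MP_fc29f1_nt.Fails

/-- binomial coefficient with rational upper entry -/
def bn (a : ℚ) (k : ℕ) : ℚ := (∏ i ∈ Finset.range k, (a - i)) / k.factorial

/-- the second sum -/
def S2 (p : ℕ) : ℚ := ∑ k ∈ Finset.range p, bn (-1 / 2) k * bn (-1 / 3) k / (-27) ^ k

/-- The congruence for the second sum in part (a) does not hold for every prime above 5. -/
theorem result : ¬ ∀ p : ℕ, p.Prime → 5 < p → p % 3 = 1 → ∀ A B : ℤ,
    (p : ℤ) = A ^ 2 + 3 * B ^ 2 → 3 ∣ A - 1 →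
    ∃ c : ℚ, ¬ p ∣ c.den ∧ S2 p - (2 * A - p / (2 * A)) = p ^ 2 * c := by
  intro h
  obtain ⟨c, h1, h2⟩ := h 7 (by norm_num) (by norm_num) (by norm_num) (-2) 1 (by norm_num)
    (by norm_num)
  have e : S2 7 = 215591174128891 / 216905884017408 := by
    simp only [S2, bn, Finset.sum_range_succ, Finset.prod_range_succ, Nat.factorial]
    norm_num
  have e2 : c = 100518487595437 / 1518341188121856 := by
    rw [e] at h2
    push_cast at h2
    linarith
  rw [e2] at h1
  exact h1 (by norm_num)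

end Pool.Agent.Results.MP_fc29f1_nt.Fails
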